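import Pool.Agent.P.MP_1a0ecf_al.D.D5A2

namespace Pool.Agent.P.MP_1a0ecf_al

noncomputable section

set_option maxRecDepth 100000

theorem tD5A2_R : tD5A2.cR = true := by decide +kernel

theorem tD5A2_C : tD5A2.cC = true := by decide +kernel


end

end Pool.Agent.P.MP_1a0ecf_al
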