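import Pool.Agent.P.MP_1a0ecf_al.D.D6

namespace Pool.Agent.P.MP_1a0ecf_al

noncomputable section

set_option maxRecDepth 100000

theorem tD6_cM_0 : allN (fun k => tD6.cM (Nat.add 0 k)) 37 = true := by decide +kernel


end

end Pool.Agent.P.MP_1a0ecf_al
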