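import Pool.Agent.P.MP_1a0ecf_al.D.E6

namespace Pool.Agent.P.MP_1a0ecf_al

noncomputable section

set_option maxRecDepth 100000

noncomputable def fE6 : FD := ⟨17, 3, 2, 0x70e0c08090e07100b070a0f0d0305060e0705070405020100, 0x110d170c16100e1415070903040b020100, 0x200000000000000000000000000000000200000000000000000000000000000880100000000000000000000000000000010000000000000000000000000000040000000000000000000000000000000010000000000000000000000000000000040000000000000000000000000000010000000000000000000000000000000200000000000000000000000000000010480a000000000000000000000000000000200000000000000000000000000000004480000000000000000000000000000001000000000000000000000000000000800000000000000000000000000000000040000000000000000000000000000000200000000000000000000000000000001, 0x2011200001700001600001500001401011701010700001100001001010700000e00000d00000c00000b020106000009020213000007010203010107000004000003000002000001000000, 0x720000000000000000000000000000000d0000000000000000000000000000000200000000000000000000000000000001, 0x504, 0x2d0000000000000000000000000000000000000000000000000000000000000000000000000000000000000000000000000021c, 0x1000000000000000000000000000000000000000000000000000000000000000000000000000000000000000000000000000000000000000000000000000000000000000000000000000000000000000000000000000000000000000000000000000000000000000000000000000000000000000000000000000000000000000000000000000000000000000000000000000000000000000000000000000000000000000000000000000000000000000000000000000000000000000000000000000000000000000000000000000000000000000000, 0x3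0a80000000000000000000000000000008000000007ffffffffffffffffffffffffffffa600000000080000000000000000000000000000168000000018000000000000000000000000000000500000000000000000000000000000000000000000000000000000000000000000000000000000000000000000000000000000000000000000000000000000000000000000000000000000000000000000000000000000000000000000000000000000000000000000000000000000000000000000000000000000000000000000000000000000000000000000000000000000000000000000000000000000000000000000000000000000000000000000000000000000000000000000000000000000000000000000000000000000000000000000000000000000000000000000000000000000000000000000000000000000000000000000000000000000000000000000000000000000000000000000000000000000000000000000000000000000000000000000000000000000000000000000000000000000000000000000000000000000000000000000000000000000000000000000000000000000000000000000000000000000000000000000000000000000000000000000000000000000000000000000000000000000000000000000000000000000000000000000000000000000000000000000000000000000000000000000000000000000000000000000000000000000000000000000000000000000000000000000000000000000000000000000000000000000000000000000000000000000000000000000000000000000000000000000000000000000000000000000000000000000000000000000000000000000000000000000000030a7ffffffffffffffffffffffffffffff800000000800000000000000000000000000005a0000000007ffffffffffffffffffffffffffffe980000000180000000000000000000000000000005⟩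

theorem fE6_ck : fE6.ck tE6 = true := by decide +kernel


end

end Pool.Agent.P.MP_1a0ecf_al
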