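import Pool.Agent.P.MP_1a0ecf_al.D.S0

namespace Pool.Agent.P.MP_1a0ecf_al

noncomputable section

set_option maxRecDepth 100000

noncomputable def fH3 : FD := ⟨7, 0, 0, 0x4050501060204030100, 0x5080302040100, 0x20000000000000000000000000000001800000000000000000000000000000020800000000000000000000000000000004000000000000000000000000000000100000000000000000000000000000004200000000000000000000000000000001, 0x10203000008010108010201000005000004000003000002000001000000, 1, 0, 0, 0, 0⟩

theorem fH3_ck : fH3.ck tH3 = true := by decide +kernel


end

end Pool.Agent.P.MP_1a0ecf_al
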