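import Pool.Agent.P.MP_1a0ecf_al.D.H4

namespace Pool.Agent.P.MP_1a0ecf_al

noncomputable section

set_option maxRecDepth 100000

noncomputable def fH4 : FD := ⟨13, 0, 0, 0x404040404040404040a04010b0706050409040403080704020c0b05040a06040100, 0x80704100c140312020d090100, 0x10000000000000000000000000000200080000000000000000000000000010000100000000000000000000000000001000000000000000000000000000000001000000000000000000000000000001008000000000000000000000000000008000800000000000000000000000000040040000000000000000000000003fe82c42400000000000000000000000000002000000000000000000000000000000002000000000000000000000000000040000200000000000000000000000000000001, 0x4010e05011e04011104010e06011704010e04011105012104010e01060405012101060101040700001401040300001203010a00001002010503010a00000d00000c010314020105000009000008000007010312010102000004000003000002000001000000, 1, 0, 0, 0, 0⟩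

theorem fH4_ck : fH4.ck tH4 = true := by decide +kernel


end

end Pool.Agent.P.MP_1a0ecf_al
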