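import Pool.Agent.P.MP_1a0ecf_al.D.E6

namespace Pool.Agent.P.MP_1a0ecf_al

noncomputable section

set_option maxRecDepth 100000

noncomputable def oE61 : OD := ⟨0x401000300, 5, 19, 0x80807f7f817f81808180808080807f80807f7f81807f7f81817f7f818180817e81808080808081817f817f807f808080808081808081817f8081817f7f81817f7f807f827f8080800000000000000000000000000000000000000000000000000000000000000000000000000000000000000000000000000000000000000000000000000000000000000000000000000000000000000000000000000000000000000000000000000000000000000000000000000000000000000000000000000000000000000000000000000000000000000000000000007f81808080808080807f807f80817f817f7f817f81817f7f818081817f80808081807e80817f80808080808080818081807f817f81817f817f7f81817f807f7f818080807f8082808080807f80817f80817f7f81817f7f8180817f7f808180817f808081807f80808081807e80808081807f81807f81817f7f81817f807f8181807f807f8180807f80818080807f8082, 720⟩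

theorem oE61_ck : oE61.ck tE6 3 = true := by decide +kernel


end

end Pool.Agent.P.MP_1a0ecf_al
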