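import Pool.Agent.P.MP_1a0ecf_al.D.E7

namespace Pool.Agent.P.MP_1a0ecf_al

noncomputable section

set_option maxRecDepth 100000

noncomputable def oE70 : OD := ⟨0x40201000400, 0x1040309, 151, 0x7f808180808080807f8080807f8081807f7f8180807f81817f807f80817f7f80808180817f7f818081807f7f80818081807f80808180817e808080817f807f81807f80808080808180808081807f8081817f8080817f7f818081807f818180807f807f81817f807f808181807f807f808180807f807f828080807f8180810000000000000000000000000000000000000000000000000000000000000000000000000000000000000000000000000000000000000000000000000000000000000000000000000000000000000000000000000000000000000000000000000000000000000000000000000000000000000000000000000000000000000000000000000000000000000000000000000000000000000000000000000000000000000000000000000000000000000000000000000000000000000000000000000000000000000000000000000000000000000000000000000000000000000000000000000000000000000000000000000000000000000000000000008080807f7f818180808080807f80807f817f7f817f81817f808180808180808080808080807f8080807f7f817f807f7f8181817f7f81818080817e8180808080808081817f7f8080808080818080817f81817f817f7f81807f80807f80808080808080808180808081817f818081817f7f7f81817f7f80807f827f808080000000000000000000000000000000000000000000000000000000000000000000000000000000000000000000000000000000000000000000000000000000000000000000000000000000000000000000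000000000000000000000000000000000000000000000000000000000000000000000000000000000000000000807f8180808080807f8080817f8080817f7f8081817f808080817f7f808080817f817f808080817f817f808080817f817f808080817f817f808080817e808180817f80808080808180807f8180807f8181807f7f818080807f81818080807f817f818080807f817f818080807f817f818080807f817f818080807f82807f8080807f817f817f80817f808081808080808080808080807f80807f80817f80817f7f80817f81817f7f817f8081817f7f81808081817f8080808081807e80808080817f817f81807f8180807f8080808080808080808081808081807f81807f8181807f817f7f81817f81807f7f81817f80807f7f81808080807f8082807f818080808080808080807f8080817f8080817f7f8081817f7f8081817f7f7f818081817f7f808180817f7f80808180817f80808081807f8080808081807e817f8080808080808080808180807f8180807f8181807f7f8181807f7f8181817f807f7f8181807f807f818180807f807f818080807f8081808080807f8082, 10080⟩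

theorem oE70_ck : oE70.ck tE7 4 = true := by decide +kernel


end

end Pool.Agent.P.MP_1a0ecf_al
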