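import Pool.Agent.P.MP_1a0ecf_al.D.E8

namespace Pool.Agent.P.MP_1a0ecf_al

noncomputable section

set_option maxRecDepth 100000

noncomputable def oE81 : OD := ⟨0x60401000400, 11, 83, 0x807f81808080808080808080808080807f807f81807f8180807f81807f7f81807f8181807f818080807f8180807f7f8180807f81818080807f818080807f7f81807f807f8181807f81807f818080807f817f8180807f7f81808180807f8181808080807f81808080807f7f8180808080817e81808080808080817f808080808080808080808080808180817f80817f8080817f8081817f80817f7f80817f808080817f808081817f8080817f7f808080817f80808081817f808180817f7f80817f80817f808080817f817f808081817f807f8080817f7f80808080817f8080808081817f808080807f827f80808080800000000000000000000000000000000000000000000000000000000000000000000000000000000000000000000000000000000000000000000000000000000000000000000000000000000000000000000000000000000000000000000000000000000000000000000000000000000000000000000000000000000000000000000000000000000000000000000000000000000000000000000000000000000000000000000000000000000000000000000000000000000000000000000000000000000000000000000000000000000000000000000000000000000000000000000000000000000000000000000000008080807f818080808080807f7f817f818081808080808080807f80807f817f80817f817f80817f8081808080818080807f808080807f80817f807f80817f817f817f80817f8180817f80808180808080818080808080808080807f7f8080807f7f81817f807f7f818180817f7f8181808080817e81808080808080817f80808080808081817f817f807f8080808080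8080818080817f81807f817f81807f81807f8080807f808080818080808081807f818081807f817f817f81807f817f807f8180807f808080807f808080808080808080818180808081817f7f818081817f7f807f81817f7f8080807f827f80808000000000000000000000000000000000000000000000000000000000000000000000000000000000000000000000000000000000000000000000000000000000000000000000000000000000000000000000000000000000000000000000000000000000000000000000000000000000000000000000000000000000000000000000000000000000000000000000000000000000000000000000000000000000000000000000000000000000000000000000000000000000000000000000000000000000000000000000000000000000000000000000000000000000000000000000000000000000000000000000000000000000000000000000000000000000000000000000000000000000000000000000000000000000000000000000000000000000000000000000000000000000000000000000000000000000000000000000000000000000000000000000000000000000000000000000000000000000000000000000000000000000000000000000000000000000000000000000000000000000000000000000000000000000000000000000000000000000000000000000000000000000000000000000000000000000000000000000000000000000000000000000000000000000000000000000000000000000000000000000000080808080807f817f7f81818080808080808080807f808080817f8080817f7f8081817f7f8081817f7f808081817f80808080817f80808080808180808080808080807f8080807f8080817f8080817f7f80817f8081817f7f80817f8081817f7f817f808081817f7f8180808081817f808080808081807e808080808080817f81817f7f808080808080808080818080807f8180807f8181807f7f8181807f7f818180807f7f81808080807f8180808080807f8080808080808080818080808180807f8180807f8181807f81807f7f8181807f81807f7f81817f8180807f7f81817f8080807f7f8180808080807f808280808080808080807f817f817f817f80817f80817f8080817f80808081808080808080808080808080807f80808080817f80808080817f7f80808081817f7f808081817f7f7f808181817f7f7f80818081817f7f7f80818081817f7f80808180817f7f8080808180817f8080808081807f808080808081807e80808080808080817f817f817f81807f81807f8180807f818080807f8080808080808080808080808081808080807f81808080807f81818080807f7f818180807f7f818181807f7f7f818181807f807f7f818181807f807f7f818180807f807f81818080807f807f81808080807f808180808080807f8082,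 0⟩

theorem oE81_ck : oE81.ck tE8 4 = true := by decide +kernel


end

end Pool.Agent.P.MP_1a0ecf_al
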