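import Pool.Agent.P.MP_1a0ecf_al.D.E7
import Pool.Agent.P.MP_1a0ecf_al.D.E8

namespace Pool.Agent.P.MP_1a0ecf_al

noncomputable section

set_option maxRecDepth 100000

noncomputable def e1 : ED := ⟨0x6050403020100, 0x605c5854514f4b4a464544413f3e3c3a393836343332302f2d2c2b28272625242221201f1e1d1b1a1918171614131211100f0d0c0b0a090806050403020100, 0x510000000000000000004e0000000000000000004b0000000000000000004a00000000000000000049000000000000000000430000000000000000003e0000000000000000003b00000000000000000039000000000000000000360000000000000000003500000000000000000033000000000000000000320000000000000000002f0000000000000000002e0000000000000000002b0000000000000000002a0000000000000000002800000000000000000027000000000000000000260000000a222d38760525000000000000000000240000000000000000002300000000000000000022000000000000000000200000000000000000001f0000000000000000001e0000000000000000001d0000000000000000001c0000000000000000001b0000000000000000001a000000000000000000190000000000000000001800000000000000000017000000000000000000160000000000000000001500000000000000000014000000000000000000130004060a0e1d537407120000000000000000001200000000000000000011000000000000000000100000000000000000000f0000000000000000000e0000000000000000000d0000000000000000000c0000000000000000000b00000001051c1f6c05090000000000000000000a0000000000000000000900000000000000000008000000000000000000070000050d131c5b66060500000000000000000006000000000000000000050000000000000000000400000000000000000003000000000000000000020000000000000000000100000000000000000000⟩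

theorem e1_ck : e1.ck tE7 tE8 = true := by decide +kernel

theorem j4 : e1.cJ tE7 tE8 1082392576 608789819729626956876317336797184 128 30 = true := by decide +kernel

theorem j9 : e1.cJ tE7 tE8 4399128641536 446589964022299291737933410729984 128 41 = true := by decide +kernel

theorem j16 : e1.cJ tE7 tE8 8650784 243706446863896889245266813681920 128 8 = true := by decide +kernel

theorem j41 : e1.cJ tE7 tE8 4 67502080 158 17 = true := by decide +kernel

theorem j66 : e1.cJ tE7 tE8 1 528 188 4 = true := by decide +kernel

theorem j82 : e1.cJ tE7 tE8 136 537395200 148 19 = true := by decide +kernel

theorem j101 : e1.cJ tE7 tE8 144115188075855872 1209516115424987880357888 110 69 = true := by decide +kernel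

theorem j112 : e1.cJ tE7 tE8 34359738624 4951760157141556283968585728 140 45 = true := by decide +kernel

theorem j118 : e1.cJ tE7 tE8 4096 5497558138880 134 40 = true := by decide +kernel

theorem j123 : e1.cJ tE7 tE8 8796093022208 309522788753208025886490624 122 75 = true := by decide +kernel

theorem j143 : e1.cJ tE7 tE8 576461027181330432 2475881259162381267209551872 108 70 = true := by decide +kernel

theorem j186 : e1.cJ tE7 tE8 2 2048 168 11 = true := by decide +kernel

theorem j194 : e1.cJ tE7 tE8 8192 18014398509481984 136 54 = true := by decide +kernel


end

end Pool.Agent.P.MP_1a0ecf_al
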