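import Pool.Agent.P.MP_1a0ecf_al.D.E8
import Pool.Agent.P.MP_1a0ecf_al.D.S6

namespace Pool.Agent.P.MP_1a0ecf_al

noncomputable section

set_option maxRecDepth 100000

noncomputable def e5 : ED := ⟨0x7060501030200, 0x1615100f0e0d090a0807060501030200, 0xd3853697306400001040d334e6b7308280001041c1d545b73073000000000000508160421000000000105067704200003070b1a2543770716000005071a1c2841071700000405080e444507140000071c2b2c2f76061300000108153e4f74071600080b192628575e0717000000050708090a05100003072e316166670809000000080c26292a050b00030b0e1f222e4a0708000001080c455077070800000114181a3377070a00010206144b547708080001060708144a57080900000001050d0e74050700020c18354c5e7508060000080a303b5e5f070500020a1f292c394c0704000007090c2b465d0705000000021c505274060400000000000000000004001317183032415d08060002092c2d314c7507020000020a333646500703000006133e4d4f6206020002060f1b384c5e080200000000000000000003000102070c16185d07010000000000000000000100000000000000000000⟩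

theorem e5_ck : e5.ck tA4A3 tE8 = true := by decide +kernel

theorem j19 : e5.cJ tA4A3 tE8 1 1339015986582972646274242548072448 128 34 = true := by decide +kernel

theorem j95 : e5.cJ tA4A3 tE8 4 77371252459839866808565760 116 52 = true := by decide +kernel

theorem j129 : e5.cJ tA4A3 tE8 16 96714065569170333976494080 116 84 = true := by decide +kernel


end

end Pool.Agent.P.MP_1a0ecf_al
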