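import Pool.Agent.P.MP_1a0ecf_al.D.D5A2
import Pool.Agent.P.MP_1a0ecf_al.D.E8

namespace Pool.Agent.P.MP_1a0ecf_al

noncomputable section

set_option maxRecDepth 100000

noncomputable def e7 : ED := ⟨0x7060401030200, 0x2b241f1d1817161112100f0e0b090a0807060401030200, 0x40c1216232631074c0000000d3853697306410000000001080b1f0537000204090f3c4d4e072d0001020c153b3d5307280000000000000000002b000113161730385d072900030f1027385864083100030512232f3549072c000000080d39445105220000050836436e7206200000000203040677061c0000090a15173146071a000001040946484906140000090a24586167071700000c0d245a5b5c071600010405142b4d5d0813000000000000000000150000000000000000001400000f20223a48610619000102040e11545607180000050b0e1e2041061700000004062b4d5d06110000080e45526c6f06100000000001060e76040f000002090f58616707080001031423505758070d0000000932374265050b0000050b222d49770608000001090b0e4b55060900080a0d1825294c070a000000000000000000090001040732475d760808000000000000000000080000040611165376070e0001030d0e163f62080c00000001141f2d510509000506082e37455e0707000102131c213d66070500000517182c5c5d06040007091a252b575e070500040c0d0e216d7008050003051630324162070600000102040d4c550704000000000000000000040000000102034d660606000b0f1a1b2e517608030004091e20415c77080200000912252855710702000103070c38396608020000000000000000000300020307393c4e7207010000000000000000000100000000000000000000⟩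

theorem e7_ck : e7.ck tD5A2 tE8 = true := by decide +kernel

theorem j22 : e7.cJ tD5A2 tE8 4 40921964908637317174607183085568 128 22 = true := by decide +kernel

theorem j48 : e7.cJ tD5A2 tE8 2251799815782400 5229058725941518338767938650112 104 56 = true := by decide +kernel

theorem j58 : e7.cJ tD5A2 tE8 17592186044416 6496709326169675682670603927552 104 97 = true := by decide +kernel

theorem j115 : e7.cJ tD5A2 tE8 2 154742504910673633874018304 134 40 = true := by decide +kernel

theorem j197 : e7.cJ tD5A2 tE8 1 8589934592 138 33 = true := by decide +kernel


end

end Pool.Agent.P.MP_1a0ecf_al
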