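import Pool.Agent.P.MP_1a0ecf_al.D.D7
import Pool.Agent.P.MP_1a0ecf_al.D.E8

namespace Pool.Agent.P.MP_1a0ecf_al

noncomputable section

set_option maxRecDepth 100000

noncomputable def e9 : ED := ⟨0x2010304050607, 0x49433c3d36372f303127282a291f20222123181a191b1c1012111314150a090b0c0d0e02010304050607, 0x121320215f606f074f0002070b0f144a770750000a0b1e2d2f646d08470000040d1819354c063d00070b0d1a2e4476083c0000060e161a3343063f00022e31333f4f6d073a0006151b314c6a6b0832000003142d333747072b0001041415374748082d0007101a1b4c5e6a082f00000a0c2c384377062e000b10252636565a083100000b0d1628545f062c000001243053667406300000021113222e5a06220000041928354575071c0001021f21232c380821000206090f1b3f5708270004071429333639081f0000070c101e4448061e0000050a1c26515a07240001030c0e1f4677081a0001020413264448081500000203114e5c64071600000f1d1f60616206140000090c0d273848071700000a132033467507190000040d21396566071800021220355d5f72081600030f2a3b3e5b6308170003060c10264a4e07110000070b0d1a2e44070f0000081d1e344049071000000e191f343f74071200081c2528374275070d0000020d10121d40070b0000090b0d2c3d400709000506162026364e0708000102101243464e08080002091324294073070a000405183660636d070e0001090a1e3d4a4e080c00091415303b656a0809000320222b335d76080700000b2b4954556e06050000000b193c4876060500010214202a537608060000111b1e2a5574070400090c18243646710706000102040c2d2e38080200030d202d455a5d080200000c1f3f424476070300000014161e315d050100000000000000000000⟩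

theorem e9_ck : e9.ck tD7 tE8 = true := by decide +kernel

theorem j27 : e9.cJ tD7 tE8 8388672 2880419695338614044358425586958336 128 34 = true := by decide +kernel

theorem j79 : e9.cJ tD7 tE8 4 1237940039285380275435995136 148 29 = true := by decide +kernel

theorem j85 : e9.cJ tD7 tE8 1 68853694464 164 27 = true := by decide +kernel

theorem j92 : e9.cJ tD7 tE8 8 48357032784585166988247040 140 83 = true := by decide +kernel

theorem j191 : e9.cJ tD7 tE8 2 34359738368 150 35 = true := by decide +kernel


end

end Pool.Agent.P.MP_1a0ecf_al
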