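import Pool.Agent.P.MP_1a0ecf_al.Q0
import Pool.Agent.P.MP_1a0ecf_al.D.S0
import Pool.Agent.P.MP_1a0ecf_al.D.S1
import Pool.Agent.P.MP_1a0ecf_al.D.S2
import Pool.Agent.P.MP_1a0ecf_al.D.S3
import Pool.Agent.P.MP_1a0ecf_al.D.S4
import Pool.Agent.P.MP_1a0ecf_al.D.S5
import Pool.Agent.P.MP_1a0ecf_al.D.S6
import Pool.Agent.P.MP_1a0ecf_al.D.S7
import Pool.Agent.P.MP_1a0ecf_al.D.E8r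
import Pool.Agent.P.MP_1a0ecf_al.D.E8t
import Pool.Agent.P.MP_1a0ecf_al.D.E8m0
import Pool.Agent.P.MP_1a0ecf_al.D.E8m1
import Pool.Agent.P.MP_1a0ecf_al.D.E8m2
import Pool.Agent.P.MP_1a0ecf_al.D.E8m3
import Pool.Agent.P.MP_1a0ecf_al.D.E8m4
import Pool.Agent.P.MP_1a0ecf_al.D.E8m5
import Pool.Agent.P.MP_1a0ecf_al.D.E8m6
import Pool.Agent.P.MP_1a0ecf_al.D.E7r
import Pool.Agent.P.MP_1a0ecf_al.D.E7t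
import Pool.Agent.P.MP_1a0ecf_al.D.E7m0
import Pool.Agent.P.MP_1a0ecf_al.D.E7m1
import Pool.Agent.P.MP_1a0ecf_al.D.E7m2
import Pool.Agent.P.MP_1a0ecf_al.D.D7r
import Pool.Agent.P.MP_1a0ecf_al.D.D7t
import Pool.Agent.P.MP_1a0ecf_al.D.D7m0
import Pool.Agent.P.MP_1a0ecf_al.D.D7m1
import Pool.Agent.P.MP_1a0ecf_al.D.D5A2r
import Pool.Agent.P.MP_1a0ecf_al.D.D5A2t
import Pool.Agent.P.MP_1a0ecf_al.D.D5A2m0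
import Pool.Agent.P.MP_1a0ecf_al.D.D6r
import Pool.Agent.P.MP_1a0ecf_al.D.D6t
import Pool.Agent.P.MP_1a0ecf_al.D.D6m0
import Pool.Agent.P.MP_1a0ecf_al.D.E6r
import Pool.Agent.P.MP_1a0ecf_al.D.E6t
import Pool.Agent.P.MP_1a0ecf_al.D.E6m0
import Pool.Agent.P.MP_1a0ecf_al.D.H4r
import Pool.Agent.P.MP_1a0ecf_al.D.H4t
import Pool.Agent.P.MP_1a0ecf_al.D.H4m0

namespace Pool.Agent.P.MP_1a0ecf_al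

noncomputable section

set_option maxRecDepth 100000

theorem tA1_ok : tA1.OK := ⟨tA1_R, (AllR.of 0 2 2 rfl tA1_cM_0), tA1_C, tA1_T, (AllR.of 0 2 2 rfl tA1_cE_0), (AllR.of 0 2 2 rfl tA1_cL_0)⟩

theorem tA1A1_ok : tA1A1.OK := ⟨tA1A1_R, (AllR.of 0 4 4 rfl tA1A1_cM_0), tA1A1_C, tA1A1_T, (AllR.of 0 4 4 rfl tA1A1_cE_0), (AllR.of 0 4 4 rfl tA1A1_cL_0)⟩

theorem tA2_ok : tA2.OK := ⟨tA2_R, (AllR.of 0 3 3 rfl tA2_cM_0), tA2_C, tA2_T, (AllR.of 0 3 3 rfl tA2_cE_0), (AllR.of 0 3 3 rfl tA2_cL_0)⟩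

theorem tH2_ok : tH2.OK := ⟨tH2_R, (AllR.of 0 4 4 rfl tH2_cM_0), tH2_C, tH2_T, (AllR.of 0 4 4 rfl tH2_cE_0), (AllR.of 0 4 4 rfl tH2_cL_0)⟩

theorem tA2A1_ok : tA2A1.OK := ⟨tA2A1_R, (AllR.of 0 6 6 rfl tA2A1_cM_0), tA2A1_C, tA2A1_T, (AllR.of 0 6 6 rfl tA2A1_cE_0), (AllR.of 0 6 6 rfl tA2A1_cL_0)⟩

theorem tA3_ok : tA3.OK := ⟨tA3_R, (AllR.of 0 5 5 rfl tA3_cM_0), tA3_C, tA3_T, (AllR.of 0 5 5 rfl tA3_cE_0), (AllR.of 0 5 5 rfl tA3_cL_0)⟩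

theorem tH2A1_ok : tH2A1.OK := ⟨tH2A1_R, (AllR.of 0 8 8 rfl tH2A1_cM_0), tH2A1_C, tH2A1_T, (AllR.of 0 8 8 rfl tH2A1_cE_0), (AllR.of 0 8 8 rfl tH2A1_cL_0)⟩

theorem tH3_ok : tH3.OK := ⟨tH3_R, (AllR.of 0 10 10 rfl tH3_cM_0), tH3_C, tH3_T, (AllR.of 0 10 10 rfl tH3_cE_0), (AllR.of 0 10 10 rfl tH3_cL_0)⟩

theorem tA2A2_ok : tA2A2.OK := ⟨tA2A2_R, (AllR.of 0 9 9 rfl tA2A2_cM_0), tA2A2_C, tA2A2_T, (AllR.of 0 9 9 rfl tA2A2_cE_0), (AllR.of 0 9 9 rfl tA2A2_cL_0)⟩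

theorem tA2A1A1_ok : tA2A1A1.OK := ⟨tA2A1A1_R, (AllR.of 0 12 12 rfl tA2A1A1_cM_0), tA2A1A1_C, tA2A1A1_T, (AllR.of 0 12 12 rfl tA2A1A1_cE_0), (AllR.of 0 12 12 rfl tA2A1A1_cL_0)⟩

theorem tA1A1A1A1_ok : tA1A1A1A1.OK := ⟨tA1A1A1A1_R, (AllR.of 0 16 16 rfl tA1A1A1A1_cM_0), tA1A1A1A1_C, tA1A1A1A1_T, (AllR.of 0 16 16 rfl tA1A1A1A1_cE_0), (AllR.of 0 16 16 rfl tA1A1A1A1_cL_0)⟩

theorem tA3A1_ok : tA3A1.OK := ⟨tA3A1_R, (AllR.of 0 10 10 rfl tA3A1_cM_0), tA3A1_C, tA3A1_T, (AllR.of 0 10 10 rfl tA3A1_cE_0), (AllR.of 0 10 10 rfl tA3A1_cL_0)⟩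

theorem tD4_ok : tD4.OK := ⟨tD4_R, (AllR.of 0 13 13 rfl tD4_cM_0), tD4_C, tD4_T, (AllR.of 0 13 13 rfl tD4_cE_0), (AllR.of 0 13 13 rfl tD4_cL_0)⟩

theorem tA2A2A1_ok : tA2A2A1.OK := ⟨tA2A2A1_R, (AllR.of 0 18 18 rfl tA2A2A1_cM_0), tA2A2A1_C, tA2A2A1_T, (AllR.of 0 18 18 rfl tA2A2A1_cE_0), (AllR.of 0 18 18 rfl tA2A2A1_cL_0)⟩

theorem tA3A2_ok : tA3A2.OK := ⟨tA3A2_R, (AllR.of 0 15 15 rfl tA3A2_cM_0), tA3A2_C, tA3A2_T, (AllR.of 0 15 15 rfl tA3A2_cE_0), (AllR.of 0 15 15 rfl tA3A2_cL_0)⟩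

theorem tA2A1A1A1_ok : tA2A1A1A1.OK := ⟨tA2A1A1A1_R, (AllR.of 0 24 24 rfl tA2A1A1A1_cM_0), tA2A1A1A1_C, tA2A1A1A1_T, (AllR.of 0 24 24 rfl tA2A1A1A1_cE_0), (AllR.of 0 24 24 rfl tA2A1A1A1_cL_0)⟩

theorem tA3A1A1_ok : tA3A1A1.OK := ⟨tA3A1A1_R, (AllR.of 0 20 20 rfl tA3A1A1_cM_0), tA3A1A1_C, tA3A1A1_T, (AllR.of 0 20 20 rfl tA3A1A1_cE_0), (AllR.of 0 20 20 rfl tA3A1A1_cL_0)⟩

theorem tA5_ok : tA5.OK := ⟨tA5_R, (AllR.of 0 11 11 rfl tA5_cM_0), tA5_C, tA5_T, (AllR.of 0 11 11 rfl tA5_cE_0), (AllR.of 0 11 11 rfl tA5_cL_0)⟩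

theorem tD4A1_ok : tD4A1.OK := ⟨tD4A1_R, (AllR.of 0 26 26 rfl tD4A1_cM_0), tD4A1_C, tD4A1_T, (AllR.of 0 26 26 rfl tD4A1_cE_0), (AllR.of 0 26 26 rfl tD4A1_cL_0)⟩

theorem tD5_ok : tD5.OK := ⟨tD5_R, (AllR.of 0 18 18 rfl tD5_cM_0), tD5_C, tD5_T, (AllR.of 0 18 18 rfl tD5_cE_0), (AllR.of 0 18 18 rfl tD5_cL_0)⟩

theorem tA4A2_ok : tA4A2.OK := ⟨tA4A2_R, (AllR.of 0 21 21 rfl tA4A2_cM_0), tA4A2_C, tA4A2_T, (AllR.of 0 21 21 rfl tA4A2_cE_0), (AllR.of 0 21 21 rfl tA4A2_cL_0)⟩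

theorem tA6_ok : tA6.OK := ⟨tA6_R, (AllR.of 0 15 15 rfl tA6_cM_0), tA6_C, tA6_T, (AllR.of 0 15 15 rfl tA6_cE_0), (AllR.of 0 15 15 rfl tA6_cL_0)⟩

theorem tD4A2_ok : tD4A2.OK := ⟨tD4A2_R, (AllR.of 0 39 39 rfl tD4A2_cM_0), tD4A2_C, tD4A2_T, (AllR.of 0 39 39 rfl tD4A2_cE_0), (AllR.of 0 39 39 rfl tD4A2_cL_0)⟩

theorem tD5A1_ok : tD5A1.OK := ⟨tD5A1_R, (AllR.of 0 36 36 rfl tD5A1_cM_0), tD5A1_C, tD5A1_T, (AllR.of 0 36 36 rfl tD5A1_cE_0), (AllR.of 0 36 36 rfl tD5A1_cL_0)⟩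

theorem tA4A3_ok : tA4A3.OK := ⟨tA4A3_R, (AllR.of 0 35 35 rfl tA4A3_cM_0), tA4A3_C, tA4A3_T, (AllR.of 0 35 35 rfl tA4A3_cE_0), (AllR.of 0 35 35 rfl tA4A3_cL_0)⟩

theorem tA4A2A1_ok : tA4A2A1.OK := ⟨tA4A2A1_R, (AllR.of 0 42 42 rfl tA4A2A1_cM_0), tA4A2A1_C, tA4A2A1_T, (AllR.of 0 42 42 rfl tA4A2A1_cE_0), (AllR.of 0 42 42 rfl tA4A2A1_cL_0)⟩

theorem tE8_ok : tE8.OK := ⟨tE8_R, ((((((((((((((AllR.of 0 8 8 rfl tE8_cM_0).app (AllR.of 8 8 16 rfl tE8_cM_8)).app (AllR.of 16 8 24 rfl tE8_cM_16)).app (AllR.of 24 8 32 rfl tE8_cM_24)).app (AllR.of 32 8 40 rfl tE8_cM_32)).app (AllR.of 40 8 48 rfl tE8_cM_40)).app (AllR.of 48 8 56 rfl tE8_cM_48)).app (AllR.of 56 8 64 rfl tE8_cM_56)).app (AllR.of 64 8 72 rfl tE8_cM_64)).app (AllR.of 72 8 80 rfl tE8_cM_72)).app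 (AllR.of 80 8 88 rfl tE8_cM_80)).app (AllR.of 88 8 96 rfl tE8_cM_88)).app (AllR.of 96 8 104 rfl tE8_cM_96)).app (AllR.of 104 8 112 rfl tE8_cM_104)), tE8_C, tE8_T, (AllR.of 0 112 112 rfl tE8_cE_0), (AllR.of 0 112 112 rfl tE8_cL_0)⟩

theorem tE7_ok : tE7.OK := ⟨tE7_R, (((AllR.of 0 20 20 rfl tE7_cM_0).app (AllR.of 20 20 40 rfl tE7_cM_20)).app (AllR.of 40 20 60 rfl tE7_cM_40)), tE7_C, tE7_T, (AllR.of 0 60 60 rfl tE7_cE_0), (AllR.of 0 60 60 rfl tE7_cL_0)⟩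

theorem tD7_ok : tD7.OK := ⟨tD7_R, ((AllR.of 0 28 28 rfl tD7_cM_0).app (AllR.of 28 27 55 rfl tD7_cM_28)), tD7_C, tD7_T, (AllR.of 0 55 55 rfl tD7_cE_0), (AllR.of 0 55 55 rfl tD7_cL_0)⟩

theorem tD5A2_ok : tD5A2.OK := ⟨tD5A2_R, (AllR.of 0 54 54 rfl tD5A2_cM_0), tD5A2_C, tD5A2_T, (AllR.of 0 54 54 rfl tD5A2_cE_0), (AllR.of 0 54 54 rfl tD5A2_cL_0)⟩

theorem tD6_ok : tD6.OK := ⟨tD6_R, (AllR.of 0 37 37 rfl tD6_cM_0), tD6_C, tD6_T, (AllR.of 0 37 37 rfl tD6_cE_0), (AllR.of 0 37 37 rfl tD6_cL_0)⟩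

theorem tE6_ok : tE6.OK := ⟨tE6_R, (AllR.of 0 25 25 rfl tE6_cM_0), tE6_C, tE6_T, (AllR.of 0 25 25 rfl tE6_cE_0), (AllR.of 0 25 25 rfl tE6_cL_0)⟩

theorem tH4_ok : tH4.OK := ⟨tH4_R, (AllR.of 0 34 34 rfl tH4_cM_0), tH4_C, tH4_T, (AllR.of 0 34 34 rfl tH4_cE_0), (AllR.of 0 34 34 rfl tH4_cL_0)⟩


end

end Pool.Agent.P.MP_1a0ecf_al
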