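import Pool.Agent.P.MP_1a0ecf_al.Q5
import Pool.Agent.P.MP_1a0ecf_al.D.OK
import Pool.Agent.P.MP_1a0ecf_al.D.J0
import Pool.Agent.P.MP_1a0ecf_al.D.J1
import Pool.Agent.P.MP_1a0ecf_al.D.J2
import Pool.Agent.P.MP_1a0ecf_al.D.J3
import Pool.Agent.P.MP_1a0ecf_al.D.J4
import Pool.Agent.P.MP_1a0ecf_al.D.J5
import Pool.Agent.P.MP_1a0ecf_al.D.J6
import Pool.Agent.P.MP_1a0ecf_al.D.J7
import Pool.Agent.P.MP_1a0ecf_al.D.J8
import Pool.Agent.P.MP_1a0ecf_al.D.J9

namespace Pool.Agent.P.MP_1a0ecf_al

noncomputable section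

set_option maxRecDepth 100000

theorem p0 : PureAll tA3A1 512 := (pure_base tA3A1).cast _ (by decide +kernel)

theorem p1 : PureAll tA3A1 1 := p0.twist _ (by decide +kernel)

theorem a0 : EmbAll tA3A1 tE7 e0 := emb_of tA3A1_ok _ e0_ck

theorem p2 : PureAll tE7 4505798919061504 := PureAll.ind a0 p1 _ _ _ j2

theorem p3 : PureAll tE7 1082392576 := p2.twist _ (by decide +kernel)

theorem a1 : EmbAll tE7 tE8 e1 := emb_of tE7_ok _ e1_ck

theorem p4 : PureAll tE8 608789819729626956876317336797184 := PureAll.ind a1 p3 _ _ _ j4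

theorem p5 : PureAll tA2A2A1 8192 := (pure_base tA2A2A1).cast _ (by decide +kernel)

theorem p6 : PureAll tA2A2A1 1 := p5.twist _ (by decide +kernel)

theorem a2 : EmbAll tA2A2A1 tE7 e2 := emb_of tA2A2A1_ok _ e2_ck

theorem p7 : PureAll tE7 40534595669590016 := PureAll.ind a2 p6 _ _ _ j7

theorem p8 : PureAll tE7 4399128641536 := p7.twist _ (by decide +kernel)

theorem p9 : PureAll tE8 446589964022299291737933410729984 := PureAll.ind a1 p8 _ _ _ j9

theorem p10 : PureAll tA1 2 := (pure_base tA1).cast _ (by decide +kernel)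

theorem p11 : PureAll tA1 1 := p10.twist _ (by decide +kernel)

theorem a3 : EmbAll tA1 tD4 e3 := emb_of tA1_ok _ e3_ck

theorem p12 : PureAll tD4 128 := PureAll.ind a3 p11 _ _ _ j12

theorem p13 : PureAll tD4 2 := p12.twist _ (by decide +kernel)

theorem a4 : EmbAll tD4 tE7 e4 := emb_of tD4_ok _ e4_ck

theorem p14 : PureAll tE7 4503599895806976 := PureAll.ind a4 p13 _ _ _ j14

theorem p15 : PureAll tE7 8650784 := p14.twist _ (by decide +kernel)

theorem p16 : PureAll tE8 243706446863896889245266813681920 := PureAll.ind a1 p15 _ _ _ j16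

theorem p17 : PureAll tA4A3 1073741824 := (pure_base tA4A3).cast _ (by decide +kernel)

theorem p18 : PureAll tA4A3 1 := p17.twist _ (by decide +kernel)

theorem a5 : EmbAll tA4A3 tE8 e5 := emb_of tA4A3_ok _ e5_ck

theorem p19 : PureAll tE8 1339015986582972646274242548072448 := PureAll.ind a5 p18 _ _ _ j19

theorem a6 : EmbAll tA1 tD5A2 e6 := emb_of tA1_ok _ e6_ck

theorem p20 : PureAll tD5A2 536870912 := PureAll.ind a6 p11 _ _ _ j20

theorem p21 : PureAll tD5A2 4 := p20.twist _ (by decide +kernel)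

theorem a7 : EmbAll tD5A2 tE8 e7 := emb_of tD5A2_ok _ e7_ck

theorem p22 : PureAll tE8 40921964908637317174607183085568 := PureAll.ind a7 p21 _ _ _ j22

theorem p23 : PureAll tA1A1A1A1 32768 := (pure_base tA1A1A1A1).cast _ (by decide +kernel)

theorem p24 : PureAll tA1A1A1A1 1 := p23.twist _ (by decide +kernel)

theorem a8 : EmbAll tA1A1A1A1 tD7 e8 := emb_of tA1A1A1A1_ok _ e8_ck

theorem p25 : PureAll tD7 4512395720392704 := PureAll.ind a8 p24 _ _ _ j25

theorem p26 : PureAll tD7 8388672 := p25.twist _ (by decide +kernel)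

theorem a9 : EmbAll tD7 tE8 e9 := emb_of tD7_ok _ e9_ck

theorem p27 : PureAll tE8 2880419695338614044358425586958336 := PureAll.ind a9 p26 _ _ _ j27

theorem a10 : EmbAll tA1 tH3 e10 := emb_of tA1_ok _ e10_ck

theorem p28 : PureAll tH3 520 := PureAll.ind a10 p11 _ _ _ j28

theorem p29 : PureAll tH3 66 := p28.twist _ (by decide +kernel)

theorem a11 : EmbAll tH3 tH4 e11 := emb_of tH3_ok _ e11_ck

theorem p30 : PureAll tH4 10443965476 := PureAll.ind a11 p29 _ _ _ j30

theorem p31 : PureAll tA3 16 := (pure_base tA3).cast _ (by decide +kernel)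

theorem p32 : PureAll tA3 1 := p31.twist _ (by decide +kernel)

theorem a12 : EmbAll tA3 tH4 e12 := emb_of tA3_ok _ e12_ck

theorem p33 : PureAll tH4 16953525248 := PureAll.ind a12 p32 _ _ _ j33

theorem p34 : PureAll tH2A1 64 := (pure_base tH2A1).cast _ (by decide +kernel)

theorem p35 : PureAll tH2A1 1 := p34.twist _ (by decide +kernel)

theorem a13 : EmbAll tH2A1 tH4 e13 := emb_of tH2A1_ok _ e13_ck

theorem p36 : PureAll tH4 10578215968 := PureAll.ind a13 p35 _ _ _ j36

theorem p37 : PureAll tA1A1 4 := (pure_base tA1A1).cast _ (by decide +kernel)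

theorem p38 : PureAll tA1A1 1 := p37.twist _ (by decide +kernel)

theorem a14 : EmbAll tA1A1 tE7 e14 := emb_of tA1A1_ok _ e14_ck

theorem p39 : PureAll tE7 4294967296 := PureAll.ind a14 p38 _ _ _ j39

theorem p40 : PureAll tE7 4 := p39.twist _ (by decide +kernel)

theorem p41 : PureAll tE8 67502080 := PureAll.ind a1 p40 _ _ _ j41

theorem a15 : EmbAll tA2A2A1 tE8 e15 := emb_of tA2A2A1_ok _ e15_ck

theorem p42 : PureAll tE8 451945229805884014592 := PureAll.ind a15 p6 _ _ _ j42

theorem p43 : PureAll tE8 8796160393216 := p42.twist _ (by decide +kernel)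

theorem a16 : EmbAll tD4 tE8 e16 := emb_of tD4_ok _ e16_ck

theorem p44 : PureAll tE8 368934881474191097856 := PureAll.ind a16 p13 _ _ _ j44

theorem p45 : PureAll tE8 393280 := p44.twist _ (by decide +kernel)

theorem a17 : EmbAll tA1A1A1A1 tD5A2 e17 := emb_of tA1A1A1A1_ok _ e17_ck

theorem p46 : PureAll tD5A2 9008298766368768 := PureAll.ind a17 p24 _ _ _ j46

theorem p47 : PureAll tD5A2 2251799815782400 := p46.twist _ (by decide +kernel)

theorem p48 : PureAll tE8 5229058725941518338767938650112 := PureAll.ind a7 p47 _ _ _ j48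

theorem p49 : PureAll tE8 2614529362970723140586983915520 := p48.twist _ (by decide +kernel)

theorem a18 : EmbAll tA1 tD4A1 e18 := emb_of tA1_ok _ e18_ck

theorem p50 : PureAll tD4A1 524288 := PureAll.ind a18 p11 _ _ _ j50

theorem p51 : PureAll tD4A1 4 := p50.twist _ (by decide +kernel)

theorem a19 : EmbAll tD4A1 tE8 e19 := emb_of tD4A1_ok _ e19_ck

theorem p52 : PureAll tE8 158456325028600732781126877184 := PureAll.ind a19 p51 _ _ _ j52

theorem p53 : PureAll tE8 79228162514264337593577504896 := p52.twist _ (by decide +kernel)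

theorem p54 : PureAll tA2A1A1 2048 := (pure_base tA2A1A1).cast _ (by decide +kernel)

theorem p55 : PureAll tA2A1A1 1 := p54.twist _ (by decide +kernel)

theorem a20 : EmbAll tA2A1A1 tD5A2 e20 := emb_of tA2A1A1_ok _ e20_ck

theorem p56 : PureAll tD5A2 140737488355328 := PureAll.ind a20 p55 _ _ _ j56

theorem p57 : PureAll tD5A2 17592186044416 := p56.twist _ (by decide +kernel)

theorem p58 : PureAll tE8 6496709326169675682670603927552 := PureAll.ind a7 p57 _ _ _ j58

theorem p59 : PureAll tE8 3248354663084837841335301963776 := p58.twist _ (by decide +kernel)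

theorem a21 : EmbAll tA3A1 tE8 e21 := emb_of tA3A1_ok _ e21_ck

theorem p60 : PureAll tE8 516508834063867445248 := PureAll.ind a21 p1 _ _ _ j60

theorem a22 : EmbAll tA3A1 tE6 e22 := emb_of tA3A1_ok _ e22_ck

theorem p61 : PureAll tE6 295040 := PureAll.ind a22 p1 _ _ _ j61

theorem a23 : EmbAll tD4 tE6 e23 := emb_of tD4_ok _ e23_ck

theorem p62 : PureAll tE6 32928 := PureAll.ind a23 p13 _ _ _ j62

theorem a24 : EmbAll tA2A2A1 tE6 e24 := emb_of tA2A2A1_ok _ e24_ck

theorem p63 : PureAll tE6 17072128 := PureAll.ind a24 p6 _ _ _ j63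

theorem p64 : PureAll tE7 8589934592 := (pure_base tE7).cast _ (by decide +kernel)

theorem p65 : PureAll tE7 1 := p64.twist _ (by decide +kernel)

theorem p66 : PureAll tE8 528 := PureAll.ind a1 p65 _ _ _ j66

theorem p67 : PureAll tA2 4 := (pure_base tA2).cast _ (by decide +kernel)

theorem p68 : PureAll tA2 1 := p67.twist _ (by decide +kernel)

theorem a25 : EmbAll tA2 tE8 e25 := emb_of tA2_ok _ e25_ck

theorem p69 : PureAll tE8 576460752305520640 := PureAll.ind a25 p68 _ _ _ j69

theorem p70 : PureAll tE8 24 := p69.twist _ (by decide +kernel)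

theorem p71 : PureAll tA2A1 32 := (pure_base tA2A1).cast _ (by decide +kernel)

theorem p72 : PureAll tA2A1 1 := p71.twist _ (by decide +kernel)

theorem a26 : EmbAll tA2A1 tE8 e26 := emb_of tA2A1_ok _ e26_ck

theorem p73 : PureAll tE8 2305843011361177600 := PureAll.ind a26 p72 _ _ _ j73

theorem p74 : PureAll tE8 1056 := p73.twist _ (by decide +kernel)

theorem a27 : EmbAll tA1A1A1A1 tE8 e27 := emb_of tA1A1A1A1_ok _ e27_ck

theorem p75 : PureAll tE8 75560169568923537113088 := PureAll.ind a27 p24 _ _ _ j75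

theorem p76 : PureAll tE8 562949953422336 := p75.twist _ (by decide +kernel)

theorem a28 : EmbAll tA1A1 tD7 e28 := emb_of tA1A1_ok _ e28_ck

theorem p77 : PureAll tD7 9007199254740992 := PureAll.ind a28 p38 _ _ _ j77

theorem p78 : PureAll tD7 4 := p77.twist _ (by decide +kernel)

theorem p79 : PureAll tE8 1237940039285380275435995136 := PureAll.ind a9 p78 _ _ _ j79

theorem a29 : EmbAll tA2 tE7 e29 := emb_of tA2_ok _ e29_ck

theorem p80 : PureAll tE7 70368744210432 := PureAll.ind a29 p68 _ _ _ j80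

theorem p81 : PureAll tE7 136 := p80.twist _ (by decide +kernel)

theorem p82 : PureAll tE8 537395200 := PureAll.ind a1 p81 _ _ _ j82

theorem p83 : PureAll tD7 18014398509481984 := (pure_base tD7).cast _ (by decide +kernel)

theorem p84 : PureAll tD7 1 := p83.twist _ (by decide +kernel)

theorem p85 : PureAll tE8 68853694464 := PureAll.ind a9 p84 _ _ _ j85

theorem p86 : PureAll tA2A2 32 := (pure_base tA2A2).cast _ (by decide +kernel)

theorem p87 : PureAll tA2A2 1 := p86.twist _ (by decide +kernel)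

theorem a30 : EmbAll tA2A2 tE8 e30 := emb_of tA2A2_ok _ e30_ck

theorem p88 : PureAll tE8 36894614047325945856 := PureAll.ind a30 p87 _ _ _ j88

theorem p89 : PureAll tE8 134221824 := p88.twist _ (by decide +kernel)

theorem a31 : EmbAll tA1A1 tD7 e31 := emb_of tA1A1_ok _ e31_ck

theorem p90 : PureAll tD7 281474976710656 := PureAll.ind a31 p38 _ _ _ j90

theorem p91 : PureAll tD7 8 := p90.twist _ (by decide +kernel)

theorem p92 : PureAll tE8 48357032784585166988247040 := PureAll.ind a9 p91 _ _ _ j92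

theorem a32 : EmbAll tA1 tA4A3 e32 := emb_of tA1_ok _ e32_ck

theorem p93 : PureAll tA4A3 2097152 := PureAll.ind a32 p11 _ _ _ j93

theorem p94 : PureAll tA4A3 4 := p93.twist _ (by decide +kernel)

theorem p95 : PureAll tE8 77371252459839866808565760 := PureAll.ind a5 p94 _ _ _ j95

theorem p96 : PureAll tE8 38685626227668133607374848 := p95.twist _ (by decide +kernel)

theorem p97 : PureAll tA4A2 524288 := (pure_base tA4A2).cast _ (by decide +kernel)

theorem p98 : PureAll tA4A2 1 := p97.twist _ (by decide +kernel)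

theorem a33 : EmbAll tA4A2 tE7 e33 := emb_of tA4A2_ok _ e33_ck

theorem p99 : PureAll tE7 72057594037927936 := PureAll.ind a33 p98 _ _ _ j99

theorem p100 : PureAll tE7 144115188075855872 := p99.twist _ (by decide +kernel)

theorem p101 : PureAll tE8 1209516115424987880357888 := PureAll.ind a1 p100 _ _ _ j101

theorem p102 : PureAll tE8 302231454974026037854208 := p101.twist _ (by decide +kernel)

theorem a34 : EmbAll tA1 tD4A2 e34 := emb_of tA1_ok _ e34_ck

theorem p103 : PureAll tD4A2 268435456 := PureAll.ind a34 p11 _ _ _ j103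

theorem p104 : PureAll tD4A2 4 := p103.twist _ (by decide +kernel)

theorem a35 : EmbAll tD4A2 tE8 e35 := emb_of tD4A2_ok _ e35_ck

theorem p105 : PureAll tE8 590295810496144605184 := PureAll.ind a35 p104 _ _ _ j105

theorem p106 : PureAll tE8 70368744194048 := p105.twist _ (by decide +kernel)

theorem a36 : EmbAll tA1 tE6 e36 := emb_of tA1_ok _ e36_ck

theorem p107 : PureAll tE6 8192 := PureAll.ind a36 p11 _ _ _ j107

theorem p108 : PureAll tE6 2 := p107.twist _ (by decide +kernel)

theorem a37 : EmbAll tE6 tE8 e37 := emb_of tE6_ok _ e37_ck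

theorem p109 : PureAll tE8 35184640524288 := PureAll.ind a37 p108 _ _ _ j109

theorem a38 : EmbAll tA1A1A1A1 tE7 e38 := emb_of tA1A1A1A1_ok _ e38_ck

theorem p110 : PureAll tE7 18014467228958720 := PureAll.ind a38 p24 _ _ _ j110

theorem p111 : PureAll tE7 34359738624 := p110.twist _ (by decide +kernel)

theorem p112 : PureAll tE8 4951760157141556283968585728 := PureAll.ind a1 p111 _ _ _ j112

theorem a39 : EmbAll tA1 tD5A2 e39 := emb_of tA1_ok _ e39_ck

theorem p113 : PureAll tD5A2 137438953472 := PureAll.ind a39 p11 _ _ _ j113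

theorem p114 : PureAll tD5A2 2 := p113.twist _ (by decide +kernel)

theorem p115 : PureAll tE8 154742504910673633874018304 := PureAll.ind a7 p114 _ _ _ j115

theorem a40 : EmbAll tA3 tE7 e40 := emb_of tA3_ok _ e40_ck

theorem p116 : PureAll tE7 1099511627776 := PureAll.ind a40 p32 _ _ _ j116

theorem p117 : PureAll tE7 4096 := p116.twist _ (by decide +kernel)

theorem p118 : PureAll tE8 5497558138880 := PureAll.ind a1 p117 _ _ _ j118

theorem p119 : PureAll tD4 4096 := (pure_base tD4).cast _ (by decide +kernel)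

theorem p120 : PureAll tD4 1 := p119.twist _ (by decide +kernel)

theorem p121 : PureAll tE7 35184372088832 := PureAll.ind a4 p120 _ _ _ j121

theorem p122 : PureAll tE7 8796093022208 := p121.twist _ (by decide +kernel)

theorem p123 : PureAll tE8 309522788753208025886490624 := PureAll.ind a1 p122 _ _ _ j123

theorem a41 : EmbAll tA2 tE6 e41 := emb_of tA2_ok _ e41_ck

theorem p124 : PureAll tE6 524544 := PureAll.ind a41 p68 _ _ _ j124

theorem p125 : PureAll tE6 72 := p124.twist _ (by decide +kernel)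

theorem p126 : PureAll tE8 37778931880549347753984 := PureAll.ind a37 p125 _ _ _ j126

theorem a42 : EmbAll tA1A1 tA4A3 e42 := emb_of tA1A1_ok _ e42_ck

theorem p127 : PureAll tA4A3 17179869184 := PureAll.ind a42 p38 _ _ _ j127

theorem p128 : PureAll tA4A3 16 := p127.twist _ (by decide +kernel)

theorem p129 : PureAll tE8 96714065569170333976494080 := PureAll.ind a5 p128 _ _ _ j129

theorem a43 : EmbAll tA1 tA2A1A1 e43 := emb_of tA1_ok _ e43_ck

theorem p130 : PureAll tA2A1A1 256 := PureAll.ind a43 p11 _ _ _ j130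

theorem p131 : PureAll tA2A1A1 4 := p130.twist _ (by decide +kernel)

theorem a44 : EmbAll tA2A1A1 tE8 e44 := emb_of tA2A1A1_ok _ e44_ck

theorem p132 : PureAll tE8 1729382256910270464 := PureAll.ind a44 p131 _ _ _ j132

theorem p133 : PureAll tA2A1A1A1 8388608 := (pure_base tA2A1A1A1).cast _ (by decide +kernel)

theorem p134 : PureAll tA2A1A1A1 1 := p133.twist _ (by decide +kernel)

theorem a45 : EmbAll tA2A1A1A1 tE8 e45 := emb_of tA2A1A1A1_ok _ e45_ck

theorem p135 : PureAll tE8 41505174165846491136 := PureAll.ind a45 p134 _ _ _ j135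

theorem a46 : EmbAll tA3 tE6 e46 := emb_of tA3_ok _ e46_ck

theorem p136 : PureAll tE6 16384 := PureAll.ind a46 p32 _ _ _ j136

theorem p137 : PureAll tE6 512 := p136.twist _ (by decide +kernel)

theorem p138 : PureAll tE8 1180591620992289210368 := PureAll.ind a37 p137 _ _ _ j138

theorem p139 : PureAll tD4A1 33554432 := (pure_base tD4A1).cast _ (by decide +kernel)

theorem p140 : PureAll tD4A1 1 := p139.twist _ (by decide +kernel)

theorem a47 : EmbAll tD4A1 tE7 e47 := emb_of tD4A1_ok _ e47_ck

theorem p141 : PureAll tE7 288230376185266176 := PureAll.ind a47 p140 _ _ _ j141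

theorem p142 : PureAll tE7 576461027181330432 := p141.twist _ (by decide +kernel)

theorem p143 : PureAll tE8 2475881259162381267209551872 := PureAll.ind a1 p142 _ _ _ j143

theorem a48 : EmbAll tA1 tD5 e48 := emb_of tA1_ok _ e48_ck

theorem p144 : PureAll tD5 32768 := PureAll.ind a48 p11 _ _ _ j144

theorem p145 : PureAll tD5 2 := p144.twist _ (by decide +kernel)

theorem a49 : EmbAll tD5 tE8 e49 := emb_of tD5_ok _ e49_ck

theorem p146 : PureAll tE8 2361219270231841570816 := PureAll.ind a49 p145 _ _ _ j146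

theorem p147 : PureAll tE8 9903522675466283634015600640 := PureAll.ind a19 p140 _ _ _ j147

theorem p148 : PureAll tD6 8589934592 := (pure_base tD6).cast _ (by decide +kernel)

theorem p149 : PureAll tD6 1 := p148.twist _ (by decide +kernel)

theorem a50 : EmbAll tD6 tE7 e50 := emb_of tD6_ok _ e50_ck

theorem p150 : PureAll tE7 2176 := PureAll.ind a50 p149 _ _ _ j150

theorem p151 : PureAll tA5 1024 := (pure_base tA5).cast _ (by decide +kernel)

theorem p152 : PureAll tA5 1 := p151.twist _ (by decide +kernel)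

theorem a51 : EmbAll tA5 tE7 e51 := emb_of tA5_ok _ e51_ck

theorem p153 : PureAll tE7 17196646400 := PureAll.ind a51 p152 _ _ _ j153

theorem a52 : EmbAll tE6 tE7 e52 := emb_of tE6_ok _ e52_ck

theorem p154 : PureAll tE7 16777728 := PureAll.ind a52 p125 _ _ _ j154

theorem p155 : PureAll tE7 272 := PureAll.ind a52 p108 _ _ _ j155

theorem p156 : PureAll tA3A1A1 131072 := (pure_base tA3A1A1).cast _ (by decide +kernel)

theorem p157 : PureAll tA3A1A1 1 := p156.twist _ (by decide +kernel)

theorem a53 : EmbAll tA3A1A1 tE7 e53 := emb_of tA3A1A1_ok _ e53_ck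

theorem p158 : PureAll tE7 9007749010554880 := PureAll.ind a53 p157 _ _ _ j158

theorem p159 : PureAll tE7 549755830272 := PureAll.ind a47 p51 _ _ _ j159

theorem p160 : PureAll tE7 274945015808 := PureAll.ind a52 p137 _ _ _ j160

theorem a54 : EmbAll tD5 tE7 e54 := emb_of tD5_ok _ e54_ck

theorem p161 : PureAll tE7 34078720 := PureAll.ind a54 p145 _ _ _ j161

theorem a55 : EmbAll tA2A1A1 tE7 e55 := emb_of tA2A1A1_ok _ e55_ck

theorem p162 : PureAll tE7 351843720888320 := PureAll.ind a55 p131 _ _ _ j162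

theorem a56 : EmbAll tA2A1 tE7 e56 := emb_of tA2A1_ok _ e56_ck

theorem p163 : PureAll tE7 68721573888 := PureAll.ind a56 p72 _ _ _ j163

theorem a57 : EmbAll tA5 tE6 e57 := emb_of tA5_ok _ e57_ck

theorem p164 : PureAll tE6 1088 := PureAll.ind a57 p152 _ _ _ j164

theorem a58 : EmbAll tA2A1A1 tE6 e58 := emb_of tA2A1A1_ok _ e58_ck

theorem p165 : PureAll tE6 8912896 := PureAll.ind a58 p131 _ _ _ j165

theorem p166 : PureAll tE6 1048576 := PureAll.ind a58 p55 _ _ _ j166

theorem p167 : PureAll tE6 2048 := p166.twist _ (by decide +kernel)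

theorem p168 : PureAll tE8 9444741972938545168384 := PureAll.ind a37 p167 _ _ _ j168

theorem p169 : PureAll tE8 549764202496 := p168.twist _ (by decide +kernel)

theorem p170 : PureAll tE7 139586437120 := PureAll.ind a52 p167 _ _ _ j170

theorem a59 : EmbAll tA1 tH4 e59 := emb_of tA1_ok _ e59_ck

theorem p171 : PureAll tH4 16777232 := PureAll.ind a59 p11 _ _ _ j171

theorem p172 : PureAll tH4 4194306 := p171.twist _ (by decide +kernel)

theorem a60 : EmbAll tA2 tH4 e60 := emb_of tA2_ok _ e60_ck

theorem p173 : PureAll tH4 1050624 := PureAll.ind a60 p68 _ _ _ j173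

theorem p174 : PureAll tH4 262208 := p173.twist _ (by decide +kernel)

theorem a61 : EmbAll tA1A1 tH4 e61 := emb_of tA1A1_ok _ e61_ck

theorem p175 : PureAll tH4 2097280 := PureAll.ind a61 p38 _ _ _ j175

theorem p176 : PureAll tH4 524296 := p175.twist _ (by decide +kernel)

theorem a62 : EmbAll tA2 tH3 e62 := emb_of tA2_ok _ e62_ck

theorem p177 : PureAll tH3 384 := PureAll.ind a62 p68 _ _ _ j177

theorem p178 : PureAll tE8 281474976710656 := (pure_base tE8).cast _ (by decide +kernel)

theorem p179 : PureAll tE8 1 := p178.twist _ (by decide +kernel)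

theorem a63 : EmbAll tA1 tE8 e63 := emb_of tA1_ok _ e63_ck

theorem p180 : PureAll tE8 4294967296 := PureAll.ind a63 p11 _ _ _ j180

theorem p181 : PureAll tE8 2 := p180.twist _ (by decide +kernel)

theorem a64 : EmbAll tA1A1 tE8 e64 := emb_of tA1A1_ok _ e64_ck

theorem p182 : PureAll tE8 140737488355328 := PureAll.ind a64 p38 _ _ _ j182

theorem p183 : PureAll tE8 4 := p182.twist _ (by decide +kernel)

theorem a65 : EmbAll tA1 tE7 e65 := emb_of tA1_ok _ e65_ck

theorem p184 : PureAll tE7 4194304 := PureAll.ind a65 p11 _ _ _ j184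

theorem p185 : PureAll tE7 2 := p184.twist _ (by decide +kernel)

theorem p186 : PureAll tE8 2048 := PureAll.ind a1 p185 _ _ _ j186

theorem p187 : PureAll tE8 18446744073709551616 := PureAll.ind a44 p55 _ _ _ j187

theorem p188 : PureAll tE8 8192 := p187.twist _ (by decide +kernel)

theorem a66 : EmbAll tA1 tD7 e66 := emb_of tA1_ok _ e66_ck

theorem p189 : PureAll tD7 1125899906842624 := PureAll.ind a66 p11 _ _ _ j189

theorem p190 : PureAll tD7 2 := p189.twist _ (by decide +kernel)

theorem p191 : PureAll tE8 34359738368 := PureAll.ind a9 p190 _ _ _ j191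

theorem p192 : PureAll tE7 1125899906842624 := PureAll.ind a55 p55 _ _ _ j192

theorem p193 : PureAll tE7 8192 := p192.twist _ (by decide +kernel)

theorem p194 : PureAll tE8 18014398509481984 := PureAll.ind a1 p193 _ _ _ j194

theorem p195 : PureAll tD5A2 68719476736 := (pure_base tD5A2).cast _ (by decide +kernel)

theorem p196 : PureAll tD5A2 1 := p195.twist _ (by decide +kernel)

theorem p197 : PureAll tE8 8589934592 := PureAll.ind a7 p196 _ _ _ j197

theorem a67 : EmbAll tA1 tD5A1 e67 := emb_of tA1_ok _ e67_ck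

theorem p198 : PureAll tD5A1 2097152 := PureAll.ind a67 p11 _ _ _ j198

theorem p199 : PureAll tD5A1 4 := p198.twist _ (by decide +kernel)

theorem a68 : EmbAll tD5A1 tE8 e68 := emb_of tD5A1_ok _ e68_ck

theorem p200 : PureAll tE8 288230376151711744 := PureAll.ind a68 p199 _ _ _ j200

theorem p201 : PureAll tA4A2A1 34359738368 := (pure_base tA4A2A1).cast _ (by decide +kernel)

theorem p202 : PureAll tA4A2A1 1 := p201.twist _ (by decide +kernel)

theorem a69 : EmbAll tA4A2A1 tE8 e69 := emb_of tA4A2A1_ok _ e69_ck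

theorem p203 : PureAll tE8 4835703278458516698824704 := PureAll.ind a69 p202 _ _ _ j203

theorem p204 : PureAll tE8 2417851639229258349412352 := p203.twist _ (by decide +kernel)

theorem p205 : PureAll tE6 131072 := (pure_base tE6).cast _ (by decide +kernel)

theorem p206 : PureAll tE6 1 := p205.twist _ (by decide +kernel)

theorem p207 : PureAll tE8 10141204801825835211973625643008 := PureAll.ind a37 p206 _ _ _ j207

theorem p208 : PureAll tA6 16384 := (pure_base tA6).cast _ (by decide +kernel)

theorem p209 : PureAll tA6 1 := p208.twist _ (by decide +kernel)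

theorem a70 : EmbAll tA6 tE8 e70 := emb_of tA6_ok _ e70_ck

theorem p210 : PureAll tE8 151115727451828646838272 := PureAll.ind a70 p209 _ _ _ j210

theorem p211 : PureAll tE8 604462909807314587353088 := p210.twist _ (by decide +kernel)

theorem p212 : PureAll tA3A2 8192 := (pure_base tA3A2).cast _ (by decide +kernel)

theorem p213 : PureAll tA3A2 1 := p212.twist _ (by decide +kernel)

theorem a71 : EmbAll tA3A2 tE8 e71 := emb_of tA3A2_ok _ e71_ck

theorem p214 : PureAll tE8 4722366482869645213696 := PureAll.ind a71 p213 _ _ _ j214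

theorem a72 : EmbAll tA4A2 tE8 e72 := emb_of tA4A2_ok _ e72_ck

theorem p215 : PureAll tE8 18889465931478580854784 := PureAll.ind a72 p98 _ _ _ j215

theorem a73 : EmbAll tA3 tE8 e73 := emb_of tA3_ok _ e73_ck

theorem p216 : PureAll tE8 2251799813685248 := PureAll.ind a73 p32 _ _ _ j216

theorem p217 : PureAll tD5 131072 := (pure_base tD5).cast _ (by decide +kernel)

theorem p218 : PureAll tD5 1 := p217.twist _ (by decide +kernel)

theorem p219 : PureAll tE8 649037107316853453566312041152512 := PureAll.ind a49 p218 _ _ _ j219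

theorem p220 : PureAll tE8 20282409603651670423947251286016 := PureAll.ind a16 p120 _ _ _ j220

theorem p221 : PureAll tE7 64 := PureAll.ind a52 p206 _ _ _ j221

theorem p222 : PureAll tE7 131072 := PureAll.ind a54 p218 _ _ _ j222

theorem p223 : PureAll tD5A1 134217728 := (pure_base tD5A1).cast _ (by decide +kernel)

theorem p224 : PureAll tD5A1 1 := p223.twist _ (by decide +kernel)

theorem a74 : EmbAll tD5A1 tE7 e74 := emb_of tD5A1_ok _ e74_ck

theorem p225 : PureAll tE7 65536 := PureAll.ind a74 p224 _ _ _ j225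

theorem a75 : EmbAll tA6 tE7 e75 := emb_of tA6_ok _ e75_ck

theorem p226 : PureAll tE7 536870912 := PureAll.ind a75 p209 _ _ _ j226

theorem p227 : PureAll tE7 1048576 := PureAll.ind a74 p199 _ _ _ j227

theorem a76 : EmbAll tA3A2 tE7 e76 := emb_of tA3A2_ok _ e76_ck

theorem p228 : PureAll tE7 134217728 := PureAll.ind a76 p213 _ _ _ j228

theorem a77 : EmbAll tA3A1 tE7 e77 := emb_of tA3A1_ok _ e77_ck

theorem p229 : PureAll tE7 2251799813685248 := PureAll.ind a77 p1 _ _ _ j229

theorem a78 : EmbAll tA2A2 tE7 e78 := emb_of tA2A2_ok _ e78_ck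

theorem p230 : PureAll tE7 17592186044416 := PureAll.ind a78 p87 _ _ _ j230

theorem a79 : EmbAll tA2A1A1A1 tE7 e79 := emb_of tA2A1A1A1_ok _ e79_ck

theorem p231 : PureAll tE7 562949953421312 := PureAll.ind a79 p134 _ _ _ j231

theorem a80 : EmbAll tA1 tA1A1A1A1 e80 := emb_of tA1_ok _ e80_ck

theorem p232 : PureAll tA1A1A1A1 8192 := PureAll.ind a80 p11 _ _ _ j232

theorem p233 : PureAll tA1A1A1A1 4 := p232.twist _ (by decide +kernel)

theorem a81 : EmbAll tA1A1A1A1 tE7 e81 := emb_of tA1A1A1A1_ok _ e81_ck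

theorem p234 : PureAll tE7 140737488355328 := PureAll.ind a81 p233 _ _ _ j234

theorem a82 : EmbAll tD5 tE6 e82 := emb_of tD5_ok _ e82_ck

theorem p235 : PureAll tE6 4 := PureAll.ind a82 p218 _ _ _ j235

theorem p236 : PureAll tE6 16 := PureAll.ind a82 p145 _ _ _ j236

theorem p237 : PureAll tE6 2097152 := PureAll.ind a23 p120 _ _ _ j237

theorem a83 : EmbAll tA1A1 tE6 e83 := emb_of tA1A1_ok _ e83_ck

theorem p238 : PureAll tE6 65536 := PureAll.ind a83 p38 _ _ _ j238

theorem a84 : EmbAll tA2A2 tE6 e84 := emb_of tA2A2_ok _ e84_ck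

theorem p239 : PureAll tE6 4194304 := PureAll.ind a84 p87 _ _ _ j239

theorem a85 : EmbAll tA2A1 tE6 e85 := emb_of tA2A1_ok _ e85_ck

theorem p240 : PureAll tE6 4096 := PureAll.ind a85 p72 _ _ _ j240

theorem p241 : PureAll tH4 256 := (pure_base tH4).cast _ (by decide +kernel)

theorem p242 : PureAll tH4 1 := p241.twist _ (by decide +kernel)

theorem a86 : EmbAll tA2A1 tH4 e86 := emb_of tA2A1_ok _ e86_ck

theorem p243 : PureAll tH4 4096 := PureAll.ind a86 p72 _ _ _ j243

theorem p244 : PureAll tH4 512 := p243.twist _ (by decide +kernel)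

theorem p245 : PureAll tH3 32 := (pure_base tH3).cast _ (by decide +kernel)

theorem p246 : PureAll tH3 1 := p245.twist _ (by decide +kernel)

theorem p247 : PureAll tH4 8192 := PureAll.ind a11 p246 _ _ _ j247

theorem p248 : PureAll tH2 4 := (pure_base tH2).cast _ (by decide +kernel)

theorem p249 : PureAll tH2 1 := p248.twist _ (by decide +kernel)

theorem a87 : EmbAll tH2 tH4 e87 := emb_of tH2_ok _ e87_ck

theorem p250 : PureAll tH4 65536 := PureAll.ind a87 p249 _ _ _ j250

theorem a88 : EmbAll tA1A1 tH3 e88 := emb_of tA1A1_ok _ e88_ck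

theorem p251 : PureAll tH3 16 := PureAll.ind a88 p38 _ _ _ j251

theorem a89 : EmbAll tH2 tH3 e89 := emb_of tH2_ok _ e89_ck

theorem p252 : PureAll tH3 4 := PureAll.ind a89 p249 _ _ _ j252


end

end Pool.Agent.P.MP_1a0ecf_al
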