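import Pool.Agent.P.MP_1a0ecf_al.Q7
import Pool.Agent.P.MP_1a0ecf_al.D.Pure
import Pool.Agent.P.MP_1a0ecf_al.D.OE60
import Pool.Agent.P.MP_1a0ecf_al.D.OE61
import Pool.Agent.P.MP_1a0ecf_al.D.FE6
import Pool.Agent.P.MP_1a0ecf_al.D.OE70
import Pool.Agent.P.MP_1a0ecf_al.D.OE71
import Pool.Agent.P.MP_1a0ecf_al.D.OE72
import Pool.Agent.P.MP_1a0ecf_al.D.FE7
import Pool.Agent.P.MP_1a0ecf_al.D.OE80
import Pool.Agent.P.MP_1a0ecf_al.D.OE81
import Pool.Agent.P.MP_1a0ecf_al.D.FE8
import Pool.Agent.P.MP_1a0ecf_al.D.FH3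
import Pool.Agent.P.MP_1a0ecf_al.D.FH4

namespace Pool.Agent.P.MP_1a0ecf_al

noncomputable section

set_option maxRecDepth 100000

theorem mE6_0 : PureAll tE6 (fE6.ms 0) := p206.cast _ (by decide +kernel)

theorem mE6_1 : PureAll tE6 (fE6.ms 1) := p108.cast _ (by decide +kernel)

theorem mE6_2 : PureAll tE6 (fE6.ms 2) := p235.cast _ (by decide +kernel)

theorem mE6_3 : PureAll tE6 (fE6.ms 3) := p167.cast _ (by decide +kernel)

theorem mE6_4 : PureAll tE6 (fE6.ms 4) := p236.cast _ (by decide +kernel)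

theorem mE6_5 : PureAll tE6 (fE6.ms 5) := (p164.merge p125 6 (by decide +kernel)).cast _ (by decide +kernel)

theorem mE6_6 : PureAll tE6 (fE6.ms 6) := p137.cast _ (by decide +kernel)

theorem mE6_7 : PureAll tE6 (fE6.ms 7) := ((p61.merge p62 7 (by decide +kernel)).merge p63 15 (by decide +kernel)).cast _ (by decide +kernel)

theorem mE6_8 : PureAll tE6 (fE6.ms 8) := p237.cast _ (by decide +kernel)

theorem mE6_9 : PureAll tE6 (fE6.ms 9) := p166.cast _ (by decide +kernel)

theorem mE6_10 : PureAll tE6 (fE6.ms 10) := p136.cast _ (by decide +kernel)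

theorem mE6_11 : PureAll tE6 (fE6.ms 11) := p238.cast _ (by decide +kernel)

theorem mE6_12 : PureAll tE6 (fE6.ms 12) := p239.cast _ (by decide +kernel)

theorem mE6_13 : PureAll tE6 (fE6.ms 13) := p240.cast _ (by decide +kernel)

theorem mE6_14 : PureAll tE6 (fE6.ms 14) := (p124.merge p165 19 (by decide +kernel)).cast _ (by decide +kernel)

theorem mE6_15 : PureAll tE6 (fE6.ms 15) := p107.cast _ (by decide +kernel)

theorem mE6_16 : PureAll tE6 (fE6.ms 16) := p205.cast _ (by decide +kernel)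

theorem mE6 : ∀ q < 17, PureAll tE6 (fE6.ms q) :=
  (all_lt_succ (all_lt_succ (all_lt_succ (all_lt_succ (all_lt_succ (all_lt_succ (all_lt_succ (all_lt_succ (all_lt_succ (all_lt_succ (all_lt_succ (all_lt_succ (all_lt_succ (all_lt_succ (all_lt_succ (all_lt_succ (all_lt_succ (all_lt_zero _) mE6_0) mE6_1) mE6_2) mE6_3) mE6_4) mE6_5) mE6_6) mE6_7) mE6_8) mE6_9) mE6_10) mE6_11) mE6_12) mE6_13) mE6_14) mE6_15) mE6_16)

theorem oE6 : ∀ s < 2, TopAll tE6 3 (fE6.i0 s) (fE6.v0 s) :=
  (all_lt_succ (all_lt_succ (all_lt_zero _) ((top_of _ oE60_ck).cast _ _ (by decide +kernel))) ((top_of _ oE61_ck).cast _ _ (by decide +kernel)))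

theorem goodE6 (X : Cox) (fit : tE6.Fits X) : X.Good :=
  good_of tE6_ok fE6_ck mE6 oE6 X fit

theorem mE7_0 : PureAll tE7 (fE7.ms 0) := p65.cast _ (by decide +kernel)

theorem mE7_1 : PureAll tE7 (fE7.ms 1) := p185.cast _ (by decide +kernel)

theorem mE7_2 : PureAll tE7 (fE7.ms 2) := p40.cast _ (by decide +kernel)

theorem mE7_3 : PureAll tE7 (fE7.ms 3) := p221.cast _ (by decide +kernel)

theorem mE7_4 : PureAll tE7 (fE7.ms 4) := (p150.merge p81 7 (by decide +kernel)).cast _ (by decide +kernel)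

theorem mE7_5 : PureAll tE7 (fE7.ms 5) := p222.cast _ (by decide +kernel)

theorem mE7_6 : PureAll tE7 (fE7.ms 6) := p193.cast _ (by decide +kernel)

theorem mE7_7 : PureAll tE7 (fE7.ms 7) := (p8.merge p15 23 (by decide +kernel)).cast _ (by decide +kernel)

theorem mE7_8 : PureAll tE7 (fE7.ms 8) := (p153.merge p154 24 (by decide +kernel)).cast _ (by decide +kernel)

theorem mE7_9 : PureAll tE7 (fE7.ms 9) := p117.cast _ (by decide +kernel)

theorem mE7_10 : PureAll tE7 (fE7.ms 10) := p225.cast _ (by decide +kernel)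

theorem mE7_11 : PureAll tE7 (fE7.ms 11) := p226.cast _ (by decide +kernel)

theorem mE7_12 : PureAll tE7 (fE7.ms 12) := p227.cast _ (by decide +kernel)

theorem mE7_13 : PureAll tE7 (fE7.ms 13) := p170.cast _ (by decide +kernel)

theorem mE7_14 : PureAll tE7 (fE7.ms 14) := p99.cast _ (by decide +kernel)

theorem mE7_15 : PureAll tE7 (fE7.ms 15) := (p155.merge p111 8 (by decide +kernel)).cast _ (by decide +kernel)

theorem mE7_16 : PureAll tE7 (fE7.ms 16) := (p158.merge p159 39 (by decide +kernel)).cast _ (by decide +kernel)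

theorem mE7_17 : PureAll tE7 (fE7.ms 17) := (p160.merge p142 38 (by decide +kernel)).cast _ (by decide +kernel)

theorem mE7_18 : PureAll tE7 (fE7.ms 18) := p121.cast _ (by decide +kernel)

theorem mE7_19 : PureAll tE7 (fE7.ms 19) := p100.cast _ (by decide +kernel)

theorem mE7_20 : PureAll tE7 (fE7.ms 20) := p122.cast _ (by decide +kernel)

theorem mE7_21 : PureAll tE7 (fE7.ms 21) := p228.cast _ (by decide +kernel)

theorem mE7_22 : PureAll tE7 (fE7.ms 22) := (p161.merge p141 25 (by decide +kernel)).cast _ (by decide +kernel)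

theorem mE7_23 : PureAll tE7 (fE7.ms 23) := p229.cast _ (by decide +kernel)

theorem mE7_24 : PureAll tE7 (fE7.ms 24) := p116.cast _ (by decide +kernel)

theorem mE7_25 : PureAll tE7 (fE7.ms 25) := p192.cast _ (by decide +kernel)

theorem mE7_26 : PureAll tE7 (fE7.ms 26) := ((p2.merge p14 28 (by decide +kernel)).merge p7 41 (by decide +kernel)).cast _ (by decide +kernel)

theorem mE7_27 : PureAll tE7 (fE7.ms 27) := (p80.merge p162 46 (by decide +kernel)).cast _ (by decide +kernel)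

theorem mE7_28 : PureAll tE7 (fE7.ms 28) := p230.cast _ (by decide +kernel)

theorem mE7_29 : PureAll tE7 (fE7.ms 29) := p231.cast _ (by decide +kernel)

theorem mE7_30 : PureAll tE7 (fE7.ms 30) := p39.cast _ (by decide +kernel)

theorem mE7_31 : PureAll tE7 (fE7.ms 31) := (p163.merge p110 36 (by decide +kernel)).cast _ (by decide +kernel)

theorem mE7_32 : PureAll tE7 (fE7.ms 32) := p234.cast _ (by decide +kernel)

theorem mE7_33 : PureAll tE7 (fE7.ms 33) := p184.cast _ (by decide +kernel)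

theorem mE7_34 : PureAll tE7 (fE7.ms 34) := p64.cast _ (by decide +kernel)

theorem mE7 : ∀ q < 35, PureAll tE7 (fE7.ms q) :=
  (all_lt_succ (all_lt_succ (all_lt_succ (all_lt_succ (all_lt_succ (all_lt_succ (all_lt_succ (all_lt_succ (all_lt_succ (all_lt_succ (all_lt_succ (all_lt_succ (all_lt_succ (all_lt_succ (all_lt_succ (all_lt_succ (all_lt_succ (all_lt_succ (all_lt_succ (all_lt_succ (all_lt_succ (all_lt_succ (all_lt_succ (all_lt_succ (all_lt_succ (all_lt_succ (all_lt_succ (all_lt_succ (all_lt_succ (all_lt_succ (all_lt_succ (all_lt_succ (all_lt_succ (all_lt_succ (all_lt_succ (all_lt_zero _) mE7_0) mE7_1) mE7_2) mE7_3) mE7_4) mE7_5) mE7_6) mE7_7) mE7_8) mE7_9) mE7_10) mE7_11) mE7_12) mE7_13) mE7_14) mE7_15) mE7_16) mE7_17) mE7_18) mE7_19) mE7_20) mE7_21) mE7_22) mE7_23) mE7_24) mE7_25) mE7_26) mE7_27) mE7_28) mE7_29) mE7_30) mE7_31) mE7_32) mE7_33) mE7_34)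

theorem oE7 : ∀ s < 3, TopAll tE7 4 (fE7.i0 s) (fE7.v0 s) :=
  (all_lt_succ (all_lt_succ (all_lt_succ (all_lt_zero _) ((top_of _ oE70_ck).cast _ _ (by decide +kernel))) ((top_of _ oE71_ck).cast _ _ (by decide +kernel))) ((top_of _ oE72_ck).cast _ _ (by decide +kernel)))

theorem goodE7 (X : Cox) (fit : tE7.Fits X) : X.Good :=
  good_of tE7_ok fE7_ck mE7 oE7 X fit

theorem mE8_0 : PureAll tE8 (fE8.ms 0) := p179.cast _ (by decide +kernel)

theorem mE8_1 : PureAll tE8 (fE8.ms 1) := p181.cast _ (by decide +kernel)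

theorem mE8_2 : PureAll tE8 (fE8.ms 2) := p183.cast _ (by decide +kernel)

theorem mE8_3 : PureAll tE8 (fE8.ms 3) := (p66.merge p70 4 (by decide +kernel)).cast _ (by decide +kernel)

theorem mE8_4 : PureAll tE8 (fE8.ms 4) := (p74.merge p76 10 (by decide +kernel)).cast _ (by decide +kernel)

theorem mE8_5 : PureAll tE8 (fE8.ms 5) := p186.cast _ (by decide +kernel)

theorem mE8_6 : PureAll tE8 (fE8.ms 6) := ((p41.merge p43 18 (by decide +kernel)).merge p45 18 (by decide +kernel)).cast _ (by decide +kernel)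

theorem mE8_7 : PureAll tE8 (fE8.ms 7) := p188.cast _ (by decide +kernel)

theorem mE8_8 : PureAll tE8 (fE8.ms 8) := (p79.merge p82 29 (by decide +kernel)).cast _ (by decide +kernel)

theorem mE8_9 : PureAll tE8 (fE8.ms 9) := p169.cast _ (by decide +kernel)

theorem mE8_10 : PureAll tE8 (fE8.ms 10) := (p85.merge p89 27 (by decide +kernel)).cast _ (by decide +kernel)

theorem mE8_11 : PureAll tE8 (fE8.ms 11) := p191.cast _ (by decide +kernel)

theorem mE8_12 : PureAll tE8 (fE8.ms 12) := (p92.merge p96 85 (by decide +kernel)).cast _ (by decide +kernel)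

theorem mE8_13 : PureAll tE8 (fE8.ms 13) := (p102.merge p106 46 (by decide +kernel)).cast _ (by decide +kernel)

theorem mE8_14 : PureAll tE8 (fE8.ms 14) := p194.cast _ (by decide +kernel)

theorem mE8_15 : PureAll tE8 (fE8.ms 15) := p197.cast _ (by decide +kernel)

theorem mE8_16 : PureAll tE8 (fE8.ms 16) := (p109.merge p112 45 (by decide +kernel)).cast _ (by decide +kernel)

theorem mE8_17 : PureAll tE8 (fE8.ms 17) := (p115.merge p118 40 (by decide +kernel)).cast _ (by decide +kernel)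

theorem mE8_18 : PureAll tE8 (fE8.ms 18) := (p123.merge p126 75 (by decide +kernel)).cast _ (by decide +kernel)

theorem mE8_19 : PureAll tE8 (fE8.ms 19) := ((p49.merge p53 96 (by decide +kernel)).merge p59 101 (by decide +kernel)).cast _ (by decide +kernel)

theorem mE8_20 : PureAll tE8 (fE8.ms 20) := p200.cast _ (by decide +kernel)

theorem mE8_21 : PureAll tE8 (fE8.ms 21) := p204.cast _ (by decide +kernel)

theorem mE8_22 : PureAll tE8 (fE8.ms 22) := p207.cast _ (by decide +kernel)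

theorem mE8_23 : PureAll tE8 (fE8.ms 23) := p211.cast _ (by decide +kernel)

theorem mE8_24 : PureAll tE8 (fE8.ms 24) := p210.cast _ (by decide +kernel)

theorem mE8_25 : PureAll tE8 (fE8.ms 25) := p168.cast _ (by decide +kernel)

theorem mE8_26 : PureAll tE8 (fE8.ms 26) := p214.cast _ (by decide +kernel)

theorem mE8_27 : PureAll tE8 (fE8.ms 27) := p215.cast _ (by decide +kernel)

theorem mE8_28 : PureAll tE8 (fE8.ms 28) := (p129.merge p95 86 (by decide +kernel)).cast _ (by decide +kernel)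

theorem mE8_29 : PureAll tE8 (fE8.ms 29) := (p69.merge p132 59 (by decide +kernel)).cast _ (by decide +kernel)

theorem mE8_30 : PureAll tE8 (fE8.ms 30) := (p73.merge p75 61 (by decide +kernel)).cast _ (by decide +kernel)

theorem mE8_31 : PureAll tE8 (fE8.ms 31) := p216.cast _ (by decide +kernel)

theorem mE8_32 : PureAll tE8 (fE8.ms 32) := p203.cast _ (by decide +kernel)

theorem mE8_33 : PureAll tE8 (fE8.ms 33) := p187.cast _ (by decide +kernel)

theorem mE8_34 : PureAll tE8 (fE8.ms 34) := ((p60.merge p44 68 (by decide +kernel)).merge p42 68 (by decide +kernel)).cast _ (by decide +kernel)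

theorem mE8_35 : PureAll tE8 (fE8.ms 35) := (p88.merge p135 65 (by decide +kernel)).cast _ (by decide +kernel)

theorem mE8_36 : PureAll tE8 (fE8.ms 36) := (p138.merge p143 70 (by decide +kernel)).cast _ (by decide +kernel)

theorem mE8_37 : PureAll tE8 (fE8.ms 37) := p219.cast _ (by decide +kernel)

theorem mE8_38 : PureAll tE8 (fE8.ms 38) := (p146.merge p147 71 (by decide +kernel)).cast _ (by decide +kernel)

theorem mE8_39 : PureAll tE8 (fE8.ms 39) := ((p48.merge p52 97 (by decide +kernel)).merge p58 97 (by decide +kernel)).cast _ (by decide +kernel)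

theorem mE8_40 : PureAll tE8 (fE8.ms 40) := (((((p4.merge p9 41 (by decide +kernel)).merge p16 41 (by decide +kernel)).merge p19 94 (by decide +kernel)).merge p22 41 (by decide +kernel)).merge p27 41 (by decide +kernel)).cast _ (by decide +kernel)

theorem mE8_41 : PureAll tE8 (fE8.ms 41) := (p101.merge p105 69 (by decide +kernel)).cast _ (by decide +kernel)

theorem mE8_42 : PureAll tE8 (fE8.ms 42) := p220.cast _ (by decide +kernel)

theorem mE8_43 : PureAll tE8 (fE8.ms 43) := p180.cast _ (by decide +kernel)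

theorem mE8_44 : PureAll tE8 (fE8.ms 44) := p182.cast _ (by decide +kernel)

theorem mE8_45 : PureAll tE8 (fE8.ms 45) := p178.cast _ (by decide +kernel)

theorem mE8 : ∀ q < 46, PureAll tE8 (fE8.ms q) :=
  (all_lt_succ (all_lt_succ (all_lt_succ (all_lt_succ (all_lt_succ (all_lt_succ (all_lt_succ (all_lt_succ (all_lt_succ (all_lt_succ (all_lt_succ (all_lt_succ (all_lt_succ (all_lt_succ (all_lt_succ (all_lt_succ (all_lt_succ (all_lt_succ (all_lt_succ (all_lt_succ (all_lt_succ (all_lt_succ (all_lt_succ (all_lt_succ (all_lt_succ (all_lt_succ (all_lt_succ (all_lt_succ (all_lt_succ (all_lt_succ (all_lt_succ (all_lt_succ (all_lt_succ (all_lt_succ (all_lt_succ (all_lt_succ (all_lt_succ (all_lt_succ (all_lt_succ (all_lt_succ (all_lt_succ (all_lt_succ (all_lt_succ (all_lt_succ (all_lt_succ (all_lt_succ (all_lt_zero _) mE8_0) mE8_1) mE8_2) mE8_3) mE8_4) mE8_5) mE8_6) mE8_7) mE8_8) mE8_9) mE8_10) mE8_11) mE8_12) mE8_13) mE8_14) mE8_15) mE8_16) mE8_17) mE8_18) mE8_19)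 mE8_20) mE8_21) mE8_22) mE8_23) mE8_24) mE8_25) mE8_26) mE8_27) mE8_28) mE8_29) mE8_30) mE8_31) mE8_32) mE8_33) mE8_34) mE8_35) mE8_36) mE8_37) mE8_38) mE8_39) mE8_40) mE8_41) mE8_42) mE8_43) mE8_44) mE8_45)

theorem oE8 : ∀ s < 2, TopAll tE8 4 (fE8.i0 s) (fE8.v0 s) :=
  (all_lt_succ (all_lt_succ (all_lt_zero _) ((top_of _ oE80_ck).cast _ _ (by decide +kernel))) ((top_of _ oE81_ck).cast _ _ (by decide +kernel)))

theorem goodE8 (X : Cox) (fit : tE8.Fits X) : X.Good :=
  good_of tE8_ok fE8_ck mE8 oE8 X fit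

theorem mH3_0 : PureAll tH3 (fH3.ms 0) := p246.cast _ (by decide +kernel)

theorem mH3_1 : PureAll tH3 (fH3.ms 1) := p29.cast _ (by decide +kernel)

theorem mH3_2 : PureAll tH3 (fH3.ms 2) := p251.cast _ (by decide +kernel)

theorem mH3_3 : PureAll tH3 (fH3.ms 3) := p252.cast _ (by decide +kernel)

theorem mH3_4 : PureAll tH3 (fH3.ms 4) := p28.cast _ (by decide +kernel)

theorem mH3_5 : PureAll tH3 (fH3.ms 5) := p177.cast _ (by decide +kernel)

theorem mH3_6 : PureAll tH3 (fH3.ms 6) := p245.cast _ (by decide +kernel)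

theorem mH3 : ∀ q < 7, PureAll tH3 (fH3.ms q) :=
  (all_lt_succ (all_lt_succ (all_lt_succ (all_lt_succ (all_lt_succ (all_lt_succ (all_lt_succ (all_lt_zero _) mH3_0) mH3_1) mH3_2) mH3_3) mH3_4) mH3_5) mH3_6)

theorem oH3 : ∀ s < 0, TopAll tH3 0 (fH3.i0 s) (fH3.v0 s) :=
  (all_lt_zero _)

theorem goodH3 (X : Cox) (fit : tH3.Fits X) : X.Good :=
  good_of tH3_ok fH3_ck mH3 oH3 X fit

theorem mH4_0 : PureAll tH4 (fH4.ms 0) := p242.cast _ (by decide +kernel)

theorem mH4_1 : PureAll tH4 (fH4.ms 1) := p172.cast _ (by decide +kernel)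

theorem mH4_2 : PureAll tH4 (fH4.ms 2) := p244.cast _ (by decide +kernel)

theorem mH4_3 : PureAll tH4 (fH4.ms 3) := p247.cast _ (by decide +kernel)

theorem mH4_4 : PureAll tH4 (fH4.ms 4) := ((p30.merge p33 14 (by decide +kernel)).merge p36 14 (by decide +kernel)).cast _ (by decide +kernel)

theorem mH4_5 : PureAll tH4 (fH4.ms 5) := p174.cast _ (by decide +kernel)

theorem mH4_6 : PureAll tH4 (fH4.ms 6) := p176.cast _ (by decide +kernel)

theorem mH4_7 : PureAll tH4 (fH4.ms 7) := p173.cast _ (by decide +kernel)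

theorem mH4_8 : PureAll tH4 (fH4.ms 8) := p243.cast _ (by decide +kernel)

theorem mH4_9 : PureAll tH4 (fH4.ms 9) := p250.cast _ (by decide +kernel)

theorem mH4_10 : PureAll tH4 (fH4.ms 10) := p171.cast _ (by decide +kernel)

theorem mH4_11 : PureAll tH4 (fH4.ms 11) := p175.cast _ (by decide +kernel)

theorem mH4_12 : PureAll tH4 (fH4.ms 12) := p241.cast _ (by decide +kernel)

theorem mH4 : ∀ q < 13, PureAll tH4 (fH4.ms q) :=
  (all_lt_succ (all_lt_succ (all_lt_succ (all_lt_succ (all_lt_succ (all_lt_succ (all_lt_succ (all_lt_succ (all_lt_succ (all_lt_succ (all_lt_succ (all_lt_succ (all_lt_succ (all_lt_zero _) mH4_0) mH4_1) mH4_2) mH4_3) mH4_4) mH4_5) mH4_6) mH4_7) mH4_8) mH4_9) mH4_10) mH4_11) mH4_12)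

theorem oH4 : ∀ s < 0, TopAll tH4 0 (fH4.i0 s) (fH4.v0 s) :=
  (all_lt_zero _)

theorem goodH4 (X : Cox) (fit : tH4.Fits X) : X.Good :=
  good_of tH4_ok fH4_ck mH4 oH4 X fit


end

end Pool.Agent.P.MP_1a0ecf_al
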